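import Pool.Agent.Lib.MP_b1a3a4_al.MVS.H37.Restr

/-!
# Project MVS, module FPFI: subgroups of finite index
-/

set_option linter.all false

namespace Pool.Agent.Lib.MP_b1a3a4_al.MVS.H37

/-- FPFI -/
theorem fpfi (h : FpresStatement) : FpfiStatement := by
  intro k H G _ _ _ j hj hfi n hG
  obtain ⟨F, hF⟩ := (h _ n _).1 hG
  refine (h _ n _).2 ⟨restr hj F, fun q hq => ?_⟩
  have h1 := hF q hq
  have h2 := finite_RC j hfi
  show Finite (F.X q × RC j)
  infer_instance

end Pool.Agent.Lib.MP_b1a3a4_al.MVS.H37
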