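import Pool.Agent.Lib.MP_b1a3a4_al.MVS.Interfaces

/-!
# Project MVS, tool: restriction of free modules and of resolutions to a subgroup

For an injective homomorphism `j : H → G` and a set `X` the `kH`-module `kG^(X)` is free with basis
`X × H\G` (`resEquiv`); a resolution of `G` gives one of `H` (`FreeRes.restr`).
-/

set_option linter.all false

namespace Pool.Agent.Lib.MP_b1a3a4_al.MVS.H37

open Finsupp

/-! ### Cosets -/

section cosets

variable {H G : Type} [Group H] [Group G] (j : H →* G)

/-- right cosets -/
abbrev RC : Type := Quotient (QuotientGroup.rightRel j.range)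

/-- the class of an element -/
def cls (g : G) : RC j := Quotient.mk _ g

/-- representatives -/
noncomputable def rep (t : RC j) : G := Quotient.out t

lemma cls_rep (t : RC j) : cls j (rep j t) = t := Quotient.out_eq t

lemma cls_eq (g g' : G) : cls j g = cls j g' ↔ g' * g⁻¹ ∈ j.range := by
  unfold cls
  rw [Quotient.eq, QuotientGroup.rightRel_apply]

lemma exists_hh (g : G) : ∃ h : H, j h * rep j (cls j g) = g := by
  have h1 : cls j (rep j (cls j g)) = cls j g := cls_rep j _
  rw [cls_eq] at h1
  obtain ⟨h, hh⟩ := h1
  exact ⟨h, by rw [hh]; simp⟩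

/-- the part in `H` -/
noncomputable def hh (g : G) : H := (exists_hh j g).choose

lemma hh_mul (g : G) : j (hh j g) * rep j (cls j g) = g := (exists_hh j g).choose_spec

lemma cls_mul (h : H) (g : G) : cls j (j h * g) = cls j g := by
  rw [cls_eq]
  exact ⟨h⁻¹, by simp [mul_assoc]⟩

lemma finite_RC (h : j.range.FiniteIndex) : Finite (RC j) := by
  have h1 : Finite (G ⧸ j.range) := Subgroup.finite_quotient_of_finiteIndex
  exact Finite.of_equiv _ (QuotientGroup.quotientRightRelEquivQuotientLeftRel j.range).symm

end cosets

/-! ### Free modules -/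

section free

variable (k : Type) [CommRing k] {H G : Type} [Group H] [Group G] (j : H →* G) (X : Type)

/-- `kH^(X × H\G) → kG^(X)` -/
noncomputable def resAdd : (X × RC j →₀ MonoidAlgebra k H) →+ (X →₀ MonoidAlgebra k G) :=
  Finsupp.liftAddHom (fun q : X × RC j =>
    (Finsupp.singleAddHom q.1 : MonoidAlgebra k G →+ (X →₀ MonoidAlgebra k G)).comp
      ((AddMonoidHom.mulRight (MonoidAlgebra.single (rep j q.2) (1 : k))).comp
        (gmap k j).toAddMonoidHom))

lemma resAdd_single (x : X) (t : RC j) (a : MonoidAlgebra k H) :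
    resAdd k j X (single (x, t) a) =
      single x (gmap k j a * MonoidAlgebra.single (rep j t) 1) := by
  unfold resAdd
  rw [Finsupp.liftAddHom_apply_single]
  rfl

lemma resAdd_smul (b : MonoidAlgebra k H) (v : X × RC j →₀ MonoidAlgebra k H) :
    resAdd k j X (b • v) = gmap k j b • resAdd k j X v := by
  induction v using Finsupp.induction_linear with
  | zero => simp
  | add v w hv hw => rw [smul_add, map_add, map_add, smul_add, hv, hw]
  | single q a =>
    obtain ⟨x, t⟩ := q
    rw [Finsupp.smul_single, resAdd_single, resAdd_single, Finsupp.smul_single, smul_eq_mul,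
      smul_eq_mul, map_mul, mul_assoc]

variable {j}

lemma coeff_resAdd (hj : Function.Injective j) (v : X × RC j →₀ MonoidAlgebra k H) (x : X)
    (t : RC j) (a : H) :
    (resAdd k j X v x).coeff (j a * rep j t) = (v (x, t)).coeff a := by
  classical
  induction v using Finsupp.induction_linear with
  | zero => simp
  | add v w hv hw =>
    rw [map_add]
    simp only [Finsupp.add_apply, MonoidAlgebra.coeff_add]
    rw [hv, hw]
  | single q b =>
    obtain ⟨x', t'⟩ := q
    rw [resAdd_single, Finsupp.single_apply, Finsupp.single_apply]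
    by_cases hx : x' = x
    · subst hx
      rw [if_pos rfl, MonoidAlgebra.coeff_mul_single_apply, mul_one]
      by_cases ht : t' = t
      · subst ht
        rw [if_pos rfl, mul_inv_cancel_right]
        show (Finsupp.mapDomain j b.coeff) (j a) = b.coeff a
        exact Finsupp.mapDomain_apply hj _ _
      · rw [if_neg (by simp [ht])]
        show (Finsupp.mapDomain j b.coeff) (j a * rep j t * (rep j t')⁻¹) = 0
        rw [Finsupp.mapDomain_notin_range]
        rintro ⟨c, hc⟩
        apply ht
        rw [← cls_rep j t, ← cls_rep j t', cls_eq]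
        refine ⟨a⁻¹ * c, ?_⟩
        rw [map_mul, hc, map_inv]
        group
    · rw [if_neg hx, if_neg (by simp [hx])]
      rfl

lemma resAdd_injective (hj : Function.Injective j) : Function.Injective (resAdd k j X) := by
  intro v w hvw
  ext ⟨x, t⟩ a
  rw [← coeff_resAdd k X hj, ← coeff_resAdd k X hj, hvw]

lemma gmap_single (h : H) (c : k) :
    gmap k j (MonoidAlgebra.single h c) = MonoidAlgebra.single (j h) c := by
  show MonoidAlgebra.mapDomain j (MonoidAlgebra.single h c) = _
  rw [MonoidAlgebra.mapDomain_single]

variable (j) in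
lemma resAdd_surjective : Function.Surjective (resAdd k j X) := by
  intro v
  induction v using Finsupp.induction_linear with
  | zero => exact ⟨0, map_zero _⟩
  | add v w hv hw =>
    obtain ⟨v', hv'⟩ := hv
    obtain ⟨w', hw'⟩ := hw
    exact ⟨v' + w', by rw [map_add, hv', hw']⟩
  | single x b =>
    induction b using MonoidAlgebra.induction_linear with
    | zero => exact ⟨0, by rw [Finsupp.single_zero, map_zero]⟩
    | add f g hf hg =>
      obtain ⟨v', hv'⟩ := hf
      obtain ⟨w', hw'⟩ := hg
      exact ⟨v' + w', by rw [Finsupp.single_add, map_add, hv', hw']⟩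
    | single g c =>
      refine ⟨single (x, cls j g) (MonoidAlgebra.single (hh j g) c), ?_⟩
      rw [resAdd_single, gmap_single, MonoidAlgebra.single_mul_single, mul_one, hh_mul]

/-- `kH^(X × H\G) ≃ kG^(X)` -/
noncomputable def resE (hj : Function.Injective j) :
    (X × RC j →₀ MonoidAlgebra k H) ≃+ (X →₀ MonoidAlgebra k G) :=
  AddEquiv.ofBijective (resAdd k j X) ⟨resAdd_injective k X hj, resAdd_surjective k j X⟩

variable {X}

@[simp] lemma resE_apply (hj : Function.Injective j) (v : X × RC j →₀ MonoidAlgebra k H) :
    resE k X hj v = resAdd k j X v := rfl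

lemma resE_smul (hj : Function.Injective j) (b : MonoidAlgebra k H)
    (v : X × RC j →₀ MonoidAlgebra k H) : resE k X hj (b • v) = gmap k j b • resE k X hj v :=
  resAdd_smul k j X b v

lemma resE_symm_smul (hj : Function.Injective j) (b : MonoidAlgebra k H)
    (v : X →₀ MonoidAlgebra k G) :
    (resE k X hj).symm (gmap k j b • v) = b • (resE k X hj).symm v := by
  apply (resE k X hj).injective
  rw [resE_smul, AddEquiv.apply_symm_apply, AddEquiv.apply_symm_apply]

/-- `kH^(X × H\G) ≃ kG^(X)` as `kH`-modules -/
noncomputable def resEquiv (hj : Function.Injective j) :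
    (X × RC j →₀ MonoidAlgebra k H) ≃ₗ[MonoidAlgebra k H]
      Rst (gmap k j) (X →₀ MonoidAlgebra k G) :=
  { resE k X hj with
    map_smul' := fun b v => resE_smul k hj b v }

/-- restriction of a linear map of free modules -/
noncomputable def resMap (hj : Function.Injective j) {Y : Type}
    (f : (X →₀ MonoidAlgebra k G) →ₗ[MonoidAlgebra k G] (Y →₀ MonoidAlgebra k G)) :
    (X × RC j →₀ MonoidAlgebra k H) →ₗ[MonoidAlgebra k H] (Y × RC j →₀ MonoidAlgebra k H) where
  toFun v := (resE k Y hj).symm (f (resE k X hj v))
  map_add' v w := by rw [map_add, map_add, map_add]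
  map_smul' b v := by
    rw [resE_smul, map_smul, resE_symm_smul]
    rfl

lemma resE_resMap (hj : Function.Injective j) {Y : Type}
    (f : (X →₀ MonoidAlgebra k G) →ₗ[MonoidAlgebra k G] (Y →₀ MonoidAlgebra k G))
    (v : X × RC j →₀ MonoidAlgebra k H) :
    resE k Y hj (resMap k hj f v) = f (resE k X hj v) :=
  AddEquiv.apply_symm_apply _ _

end free

/-! ### Resolutions -/

section resolutions

variable {k : Type} [CommRing k] {H G : Type} [Group H] [Group G] (j : H →* G)

lemma aug_gmap (a : MonoidAlgebra k H) : aug k G (gmap k j a) = aug k H a := by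
  induction a using MonoidAlgebra.induction_linear with
  | zero => simp
  | add f g hf hg => simp only [map_add, hf, hg]
  | single s c => rw [gmap_single]; simp

variable {j}

/-- restriction of resolutions -/
noncomputable def restr (hj : Function.Injective j) (F : GRes k G) : GRes k H where
  X := fun q => F.X q × RC j
  d := fun q => resMap k hj (F.d q)
  ε :=
    { toFun := fun v => (show k from F.ε (resE k (F.X 0) hj v))
      map_add' := fun v w => by rw [map_add, map_add]; rfl
      map_smul' := fun b v => by
        rw [resE_smul, map_smul]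
        show (aug k G (gmap k j b) * (show k from F.ε (resE k (F.X 0) hj v)) : k) =
          (aug k H b * (show k from F.ε (resE k (F.X 0) hj v)) : k)
        rw [aug_gmap] }
  ε_surj := by
    intro a
    obtain ⟨v, hv⟩ := F.ε_surj a
    obtain ⟨w, hw⟩ := (resE k (F.X 0) hj).surjective v
    refine ⟨w, ?_⟩
    show F.ε (resE k (F.X 0) hj w) = a
    rw [hw]
    exact hv
  ex0 := by
    intro z
    refine (F.ex0 (resE k (F.X 0) hj z)).trans ?_
    constructor
    · rintro ⟨y, hy⟩
      obtain ⟨w, hw⟩ := (resE k (F.X 1) hj).surjective y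
      refine ⟨w, (resE k (F.X 0) hj).injective ?_⟩
      rw [resE_resMap, hw, hy]
    · rintro ⟨y, hy⟩
      exact ⟨resE k (F.X 1) hj y, by rw [← hy, resE_resMap]⟩
  ex := by
    intro q z
    have h0 : resMap k hj (F.d q) z = 0 ↔ F.d q (resE k (F.X (q + 1)) hj z) = 0 := by
      rw [← resE_resMap, AddEquiv.map_eq_zero_iff]
    rw [h0, F.ex q (resE k (F.X (q + 1)) hj z)]
    constructor
    · rintro ⟨y, hy⟩
      obtain ⟨w, hw⟩ := (resE k (F.X (q + 2)) hj).surjective y
      refine ⟨w, (resE k (F.X (q + 1)) hj).injective ?_⟩
      rw [resE_resMap, hw, hy]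
    · rintro ⟨y, hy⟩
      exact ⟨resE k (F.X (q + 2)) hj y, by rw [← hy, resE_resMap]⟩

end resolutions

end Pool.Agent.Lib.MP_b1a3a4_al.MVS.H37
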